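import Pool.Agent.Y682.XT.Stm
import Pool.Agent.Y18.JT.Char2b

/-!
# Points of `X_0(14)` over finite fields: equations and the bad characteristics
-/

set_option autoImplicit false

namespace Pool.Agent.Y884.XT

open Pool.Agent.Y682.XT
open Pool.Agent.W97.MT (E14 ap affCount)

theorem equation_iff (R : Type) [CommRing R] (x y : R) :
    (E14.map (Int.castRingHom R)).toAffine.Equation x y ↔
      y ^ 2 + x * y + y = x ^ 3 + 4 * x - 6 := by
  rw [WeierstrassCurve.Affine.equation_iff]
  unfold E14
  simp only [WeierstrassCurve.map, eq_intCast]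
  push_cast
  constructor
  · intro h
    linear_combination h
  · intro h
    linear_combination h

theorem affCount_eq (l : ℕ) : affCount E14 l = pts (ZMod l) := rfl

/-- the parametrisation of the nodal cubic -/
theorem node_card (k : Type) [Field k] [Fintype k] :
    (Fintype.card k : ℤ) -
      Nat.card {x : k × k // x.2 ^ 2 + x.1 * x.2 = x.1 ^ 3 - x.1 ^ 2} =
      Nat.card {t : k // t ^ 2 + t + 1 = 0} - 1 := by
  classical
  have e : {x : k × k // x.2 ^ 2 + x.1 * x.2 = x.1 ^ 3 - x.1 ^ 2} ≃
      Option {t : k // ¬ t ^ 2 + t + 1 = 0} :=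
    { toFun := fun x => if h : x.1.1 = 0 then none else some ⟨x.1.2 / x.1.1, by
        have h1 := x.2
        have h2 : (x.1.2 / x.1.1) ^ 2 + x.1.2 / x.1.1 + 1 = x.1.1 := by
          field_simp
          linear_combination h1
        rw [h2]
        exact h⟩
      invFun := fun o => match o with
        | none => ⟨(0, 0), by simp⟩
        | some t => ⟨(t.1 ^ 2 + t.1 + 1, t.1 * (t.1 ^ 2 + t.1 + 1)), by
            simp only
            ring⟩
      left_inv := by
        rintro ⟨⟨x, y⟩, h⟩
        simp only at h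
        by_cases hx : x = 0
        · have hy : y = 0 := by
            rw [hx] at h
            have : y ^ 2 = 0 := by linear_combination h
            exact pow_eq_zero_iff (two_ne_zero) |>.1 this
          simp [hx, hy]
        · have h2 : (y / x) ^ 2 + y / x + 1 = x := by
            field_simp
            linear_combination h
          simp only [hx, dite_false]
          apply Subtype.ext
          apply Prod.ext
          · exact h2
          · show y / x * ((y / x) ^ 2 + y / x + 1) = y
            rw [h2]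
            field_simp
      right_inv := by
        rintro (_ | ⟨t, ht⟩)
        · simp
        · have h3 : t * (t ^ 2 + t + 1) / (t ^ 2 + t + 1) = t := mul_div_cancel_right₀ t ht
          simp only [ht, dite_false]
          exact congrArg some (Subtype.ext h3) }
  have e1 : Nat.card {x : k × k // x.2 ^ 2 + x.1 * x.2 = x.1 ^ 3 - x.1 ^ 2} =
      Nat.card {t : k // ¬ t ^ 2 + t + 1 = 0} + 1 := by
    rw [Nat.card_congr e, Nat.card_eq_fintype_card, Nat.card_eq_fintype_card, Fintype.card_option]
  have e2 : Fintype.card k = Nat.card {t : k // t ^ 2 + t + 1 = 0} +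
      Nat.card {t : k // ¬ t ^ 2 + t + 1 = 0} := by
    rw [Nat.card_eq_fintype_card, Nat.card_eq_fintype_card]
    have := Fintype.card_subtype_compl (fun t : k => t ^ 2 + t + 1 = 0)
    have h2 := Fintype.card_subtype_le (fun t : k => t ^ 2 + t + 1 = 0)
    omega
  rw [e1]
  have e3 : (Fintype.card k : ℤ) = (Nat.card {t : k // t ^ 2 + t + 1 = 0} : ℤ) +
      Nat.card {t : k // ¬ t ^ 2 + t + 1 = 0} := by exact_mod_cast e2
  push_cast
  rw [e3]
  ring

/-- characteristic `7` -/
theorem pts7 (k : Type) [Field k] [Fintype k] [CharP k 7] :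
    (Fintype.card k : ℤ) - pts k = 1 := by
  have h7 : (7 : k) = 0 := by
    have := CharP.cast_eq_zero k 7
    exact_mod_cast this
  have e : pts k = Nat.card {x : k × k // x.2 ^ 2 + x.1 * x.2 = x.1 ^ 3 - x.1 ^ 2} := by
    unfold pts
    refine Nat.card_congr
      { toFun := fun x => ⟨(x.1.1 - 2, x.1.2 - 2), ?_⟩
        invFun := fun x => ⟨(x.1.1 + 2, x.1.2 + 2), ?_⟩
        left_inv := fun x => ?_
        right_inv := fun x => ?_ }
    · have h := (equation_iff k x.1.1 x.1.2).1 x.2
      show (x.1.2 - 2) ^ 2 + (x.1.1 - 2) * (x.1.2 - 2) = (x.1.1 - 2) ^ 3 - (x.1.1 - 2) ^ 2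
      linear_combination h + (-x.1.2 + x.1.1 ^ 2 - 2 * x.1.1 + 2) * h7
    · rw [equation_iff]
      have h := x.2
      linear_combination h + (x.1.2 - x.1.1 ^ 2 - 2 * x.1.1) * h7
    · apply Subtype.ext
      apply Prod.ext
      · show x.1.1 - 2 + 2 = x.1.1
        ring
      · show x.1.2 - 2 + 2 = x.1.2
        ring
    · apply Subtype.ext
      apply Prod.ext
      · show x.1.1 + 2 - 2 = x.1.1
        ring
      · show x.1.2 + 2 - 2 = x.1.2
        ring
  rw [e, node_card]
  have h2 : (2 : k) ≠ 0 := by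
    intro h
    have : (1 : k) = 0 := by linear_combination h7 - 3 * h
    exact one_ne_zero this
  have e2 : Nat.card {t : k // t ^ 2 + t + 1 = 0} = 2 := by
    have h3 : {t : k | t ^ 2 + t + 1 = 0} = {2, 4} := by
      ext t
      simp only [Set.mem_setOf_eq, Set.mem_insert_iff, Set.mem_singleton_iff]
      have h4 : t ^ 2 + t + 1 = (t - 2) * (t - 4) := by linear_combination (t - 1) * h7
      rw [h4, mul_eq_zero, sub_eq_zero, sub_eq_zero]
    show Nat.card ({t : k | t ^ 2 + t + 1 = 0} : Set k) = 2
    rw [h3]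
    have hne : (2 : k) ≠ 4 := by
      intro h
      apply h2
      linear_combination -h
    rw [Nat.card_coe_set_eq, Set.ncard_pair hne]
  rw [e2]
  norm_num

/-- characteristic `2` -/
theorem pts2 (k : Type) [Field k] [Fintype k] [CharP k 2] (f : ℕ) (hf : Fintype.card k = 2 ^ f) :
    (Fintype.card k : ℤ) - pts k = (-1) ^ f := by
  classical
  have h2 : (2 : k) = 0 := CharTwo.two_eq_zero
  let _ : Algebra (ZMod 2) k := ZMod.algebra _ _
  have e : pts k = Nat.card {x : k × k // x.2 ^ 2 + x.1 * x.2 = x.1 ^ 3 - x.1 ^ 2} := by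
    unfold pts
    refine Nat.card_congr
      { toFun := fun x => ⟨(x.1.1 - 1, x.1.2 - 1), ?_⟩
        invFun := fun x => ⟨(x.1.1 + 1, x.1.2 + 1), ?_⟩
        left_inv := fun x => ?_
        right_inv := fun x => ?_ }
    · have h := (equation_iff k x.1.1 x.1.2).1 x.2
      show (x.1.2 - 1) ^ 2 + (x.1.1 - 1) * (x.1.2 - 1) = (x.1.1 - 1) ^ 3 - (x.1.1 - 1) ^ 2
      linear_combination h + (-2 * x.1.2 + 2 * x.1.1 ^ 2 - x.1.1 - 1) * h2
    · rw [equation_iff]
      have h := x.2
      linear_combination h + (2 * x.1.2 - 2 * x.1.1 ^ 2 - 3 * x.1.1 + 2) * h2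
    · apply Subtype.ext
      apply Prod.ext
      · show x.1.1 - 1 + 1 = x.1.1
        ring
      · show x.1.2 - 1 + 1 = x.1.2
        ring
    · apply Subtype.ext
      apply Prod.ext
      · show x.1.1 + 1 - 1 = x.1.1
        ring
      · show x.1.2 + 1 - 1 = x.1.2
        ring
  rw [e, node_card]
  have h3 := Pool.Agent.Y18.JT.count_AS (1 : k)
  have h4 := Pool.Agent.Y18.JT.ch_one (k := k) hf
  have e2 : (Nat.card {t : k // t ^ 2 + t + 1 = 0} : ℤ) =
      ∑ s : k, (if s ^ 2 + s = 1 then (1 : ℤ) else 0) := by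
    rw [Nat.card_eq_fintype_card, Fintype.card_subtype, Finset.card_filter]
    push_cast
    refine Finset.sum_congr rfl fun s _ => ?_
    have h5 : s ^ 2 + s + 1 = 0 ↔ s ^ 2 + s = 1 := by
      constructor
      · intro h
        linear_combination h - h2
      · intro h
        linear_combination h + h2
    simp only [h5]
  rw [e2, h3, h4]
  rcases Nat.even_or_odd f with h | h
  · rw [if_pos h, h.neg_one_pow]
    ring
  · rw [if_neg (Nat.not_even_iff_odd.2 h), h.neg_one_pow]
    ring

theorem ap7 : ap E14 7 = 1 := by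
  have : Fact (Nat.Prime 7) := ⟨by norm_num⟩
  have h := pts7 (ZMod 7)
  rw [ZMod.card] at h
  exact h

theorem ap2 : ap E14 2 = -1 := by
  have : Fact (Nat.Prime 2) := ⟨by norm_num⟩
  have h := pts2 (ZMod 2) 1 (by rw [ZMod.card, pow_one])
  rw [ZMod.card, pow_one] at h
  exact h

end Pool.Agent.Y884.XT
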