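import Pool.Agent.Y884.XT.Node
import Pool.Agent.Y702.L.Loc
import Pool.Agent.Y18.JT.Cub

/-!
# The Euler product of `X_0(14)` over a subfield of a cyclotomic field

Job XT-LK of the project XT of helper682; adaptation of `Y702/L/Eu.lean`.
-/

set_option autoImplicit false

open NumberField IsDedekindDomain H300.HW Filter
open Pool.Agent.H921R2.TatePole
open W165.CE (pw pw_eq pw_luc finite_bad intCast_mem_iff)
open Pool.Agent.H82R3.EK (luc luc_eq card_points natCast_mem_iff nm_cpow prime_cpow)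

namespace Pool.Agent.Y884.XT

open Pool.Agent.Y682.XT
open Pool.Agent.Y702.L (pv local_quad)
open Pool.Agent.W97.MT (E14 ap affCount)

/-- the cubic form in odd characteristic -/
lemma pts_cubic (k : Type) [Field k] (h2 : (2 : k) ≠ 0) : pts k =
    Nat.card {x : k × k // x.2 ^ 2 = x.1 ^ 3 + ((13 : ℤ) : k) * x.1 ^ 2 + ((128 : ℤ) : k) * x.1 +
      ((0 : ℤ) : k)} := by
  have h4 : (4 : k) ≠ 0 := by
    rw [show (4 : k) = 2 * 2 by norm_num]
    exact mul_ne_zero h2 h2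
  have h8 : (8 : k) ≠ 0 := by
    rw [show (8 : k) = 2 * 4 by norm_num]
    exact mul_ne_zero h2 h4
  have h16 : (16 : k) ≠ 0 := by
    rw [show (16 : k) = 2 * 8 by norm_num]
    exact mul_ne_zero h2 h8
  have h64 : (64 : k) ≠ 0 := by
    rw [show (64 : k) = 8 * 8 by norm_num]
    exact mul_ne_zero h8 h8
  unfold pts
  refine Nat.card_congr
    { toFun := fun x => ⟨(4 * (x.1.1 - 1), 4 * (2 * x.1.2 + x.1.1 + 1)), ?_⟩
      invFun := fun x => ⟨(x.1.1 / 4 + 1, (x.1.2 / 4 - (x.1.1 / 4 + 1) - 1) / 2), ?_⟩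
      left_inv := fun x => ?_
      right_inv := fun x => ?_ }
  · have h := (equation_iff k x.1.1 x.1.2).1 x.2
    push_cast
    linear_combination 64 * h
  · have h := x.2
    rw [equation_iff]
    push_cast at h
    obtain ⟨X, hX⟩ : ∃ X, X = x.1.1 / 4 + 1 := ⟨_, rfl⟩
    obtain ⟨Y, hY⟩ : ∃ Y, Y = (x.1.2 / 4 - X - 1) / 2 := ⟨_, rfl⟩
    have e1 : x.1.1 = 4 * (X - 1) := by
      rw [hX]
      field_simp
      ring
    have e2 : x.1.2 = 4 * (2 * Y + X + 1) := by
      rw [hY]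
      field_simp
      ring
    rw [← hX, ← hY]
    apply mul_left_cancel₀ h64
    rw [e1, e2] at h
    linear_combination h
  · apply Subtype.ext
    apply Prod.ext
    · show 4 * (x.1.1 - 1) / 4 + 1 = x.1.1
      field_simp
      ring
    · show (4 * (2 * x.1.2 + x.1.1 + 1) / 4 - (4 * (x.1.1 - 1) / 4 + 1) - 1) / 2 = x.1.2
      field_simp
      ring
  · apply Subtype.ext
    apply Prod.ext
    · show 4 * (x.1.1 / 4 + 1 - 1) = x.1.1
      field_simp
      ring
    · show 4 * (2 * ((x.1.2 / 4 - (x.1.1 / 4 + 1) - 1) / 2) + (x.1.1 / 4 + 1) + 1) = x.1.2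
      field_simp
      ring

/-- Hasse's bound -/
lemma pts_bound {k : Type} [Field k] [Fintype k] (hk : ringChar k ≠ 2) :
    |((Fintype.card k : ℤ) - pts k : ℝ)| ≤ 2 * Real.sqrt (Fintype.card k) := by
  classical
  have h2 : (2 : k) ≠ 0 := Ring.two_ne_zero hk
  rw [pts_cubic k h2]
  set P : Polynomial k := Polynomial.X ^ 3 + Polynomial.C ((13 : ℤ) : k) * Polynomial.X ^ 2 +
    Polynomial.C ((128 : ℤ) : k) * Polynomial.X + Polynomial.C ((0 : ℤ) : k) with hP
  have hdeg : P.natDegree = 3 := by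
    rw [hP]
    compute_degree!
  have hmon : P.Monic := by
    rw [hP]
    monicity!
  have hns : ∀ (c : k) (h : Polynomial k), P ≠ Polynomial.C c * h ^ 2 := by
    intro c h he
    have h1 := congrArg Polynomial.natDegree he
    rw [hdeg] at h1
    have hc : c ≠ 0 := by
      rintro rfl
      rw [map_zero, zero_mul, Polynomial.natDegree_zero] at h1
      omega
    rw [Polynomial.natDegree_C_mul hc, Polynomial.natDegree_pow] at h1
    omega
  have h4 := Pool.Agent.H341R2.Sharp.weil_sharp_monic hk hmon (by rw [hdeg]; norm_num) hns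
  rw [hdeg] at h4
  have h5 : ∀ x : k, P.eval x = x ^ 3 + ((13 : ℤ) : k) * x ^ 2 + ((128 : ℤ) : k) * x +
      ((0 : ℤ) : k) := by
    intro x
    rw [hP]
    simp only [Polynomial.eval_add, Polynomial.eval_mul, Polynomial.eval_pow, Polynomial.eval_X,
      Polynomial.eval_C]
  simp_rw [h5] at h4
  have h6 := congrArg (fun z : ℤ => (z : ℝ)) (card_points hk (fun x : k =>
    x ^ 3 + ((13 : ℤ) : k) * x ^ 2 + ((128 : ℤ) : k) * x + ((0 : ℤ) : k)))
  push_cast only [Int.cast_add, Int.cast_sum, Int.cast_natCast] at h6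
  rw [h6, Int.cast_natCast, show (Fintype.card k : ℝ) - (Fintype.card k +
    ∑ x : k, (quadraticChar k (x ^ 3 + ((13 : ℤ) : k) * x ^ 2 + ((128 : ℤ) : k) * x +
      ((0 : ℤ) : k)) : ℝ)) =
    - ∑ x : k, (quadraticChar k (x ^ 3 + ((13 : ℤ) : k) * x ^ 2 + ((128 : ℤ) : k) * x +
      ((0 : ℤ) : k)) : ℝ) by ring, abs_neg]
  refine h4.trans (le_of_eq ?_)
  norm_num

/-- the number `[p ∤ 14] p` -/
noncomputable def pp (p : ℕ) : ℂ := if p ∣ 14 then 0 else p

section
variable {K : Type} [Field K] [NumberField K]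

lemma card_quot (v : HeightOneSpectrum (𝓞 K)) :
    Nat.card (𝓞 K ⧸ v.asIdeal) = (below v : ℕ) ^ deg v := by
  have h1 := (nm_eq v).1
  rw [← h1]
  unfold nm
  rw [Ideal.absNorm_apply, Submodule.cardQuot_apply]

lemma charP_quot (v : HeightOneSpectrum (𝓞 K)) : CharP (𝓞 K ⧸ v.asIdeal) (below v : ℕ) := by
  have hmax : v.asIdeal.IsMaximal := v.isPrime.isMaximal v.ne_bot
  have : IsDomain (𝓞 K ⧸ v.asIdeal) := Ideal.Quotient.isDomain v.asIdeal
  have : ringChar (𝓞 K ⧸ v.asIdeal) = (below v : ℕ) := by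
    apply CharP.ringChar_of_prime_eq_zero (below v).2
    have := Ideal.Quotient.eq_zero_iff_mem.2 (nm_eq v).2.2
    simpa using this
  rw [← this]; infer_instance

lemma mem14_iff (v : HeightOneSpectrum (𝓞 K)) :
    ((14 : ℤ) : 𝓞 K) ∈ v.asIdeal ↔ (below v : ℕ) ∣ 14 := by
  have h := natCast_mem_iff v 14
  push_cast at h ⊢
  exact h

lemma dvd14 {p : ℕ} (hp : p.Prime) : p ∣ 14 ↔ p = 2 ∨ p = 7 := by
  rw [show (14 : ℕ) = 2 * 7 by norm_num, hp.dvd_mul,
    Nat.prime_dvd_prime_iff_eq hp (by norm_num), Nat.prime_dvd_prime_iff_eq hp (by norm_num)]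

lemma av_eq (v : HeightOneSpectrum (𝓞 K)) :
    ((av v : ℤ) : ℂ) = pw (ap E14 (below v) : ℂ) (pp (below v)) (deg v) := by
  have hmax : v.asIdeal.IsMaximal := v.isPrime.isMaximal v.ne_bot
  letI : Field (𝓞 K ⧸ v.asIdeal) := Ideal.Quotient.field v.asIdeal
  have : Finite (𝓞 K ⧸ v.asIdeal) := Ideal.finiteQuotientOfFreeOfNeBot v.asIdeal v.ne_bot
  letI : Fintype (𝓞 K ⧸ v.asIdeal) := Fintype.ofFinite _
  have hch := charP_quot v
  have hfp : Fact (below v : ℕ).Prime := ⟨(below v).2⟩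
  obtain ⟨h1, h2, h3⟩ := nm_eq v
  have hcard : Ideal.absNorm v.asIdeal = Fintype.card (𝓞 K ⧸ v.asIdeal) := by
    rw [Ideal.absNorm_apply, Submodule.cardQuot_apply, Nat.card_eq_fintype_card]
  by_cases h7 : (below v : ℕ) = 7
  · have hpp : pp (below v) = 0 := by
      unfold pp
      rw [if_pos (by rw [h7]; norm_num)]
    rw [hpp, h7, ap7, pw_eq (α := 1) (β := 0) (by simp) (by simp), one_pow, zero_pow h2.ne',
      add_zero]
    have hch' : CharP (𝓞 K ⧸ v.asIdeal) 7 := h7 ▸ hch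
    have := pts7 (𝓞 K ⧸ v.asIdeal)
    unfold av
    rw [hcard]
    rw [this, Int.cast_one]
  by_cases hp2 : (below v : ℕ) = 2
  · have hpp : pp (below v) = 0 := by
      unfold pp
      rw [if_pos (by rw [hp2]; norm_num)]
    rw [hpp, hp2, ap2, pw_eq (α := -1) (β := 0) (by simp) (by simp), zero_pow h2.ne',
      add_zero]
    have hch' : CharP (𝓞 K ⧸ v.asIdeal) 2 := hp2 ▸ hch
    have := pts2 (𝓞 K ⧸ v.asIdeal) (deg v) (by
      rw [← Nat.card_eq_fintype_card, card_quot, hp2])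
    unfold av
    rw [hcard]
    rw [this]
    push_cast
    rfl
  have hpp : pp (below v) = ((below v : ℕ) : ℤ) := by
    unfold pp
    rw [if_neg (fun h => ((dvd14 (below v).2).1 h).elim hp2 h7)]
    push_cast
    rfl
  rw [hpp, pw_luc]
  congr 1
  have h20 : (2 : 𝓞 K ⧸ v.asIdeal) ≠ 0 := by
    intro h
    have h' : ((2 : ℕ) : 𝓞 K ⧸ v.asIdeal) = 0 := by exact_mod_cast h
    rw [CharP.cast_eq_zero_iff (𝓞 K ⧸ v.asIdeal) (below v : ℕ)] at h'
    exact hp2 ((Nat.prime_dvd_prime_iff_eq (below v).2 Nat.prime_two).1 h')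
  have h20' : (2 : ZMod (below v : ℕ)) ≠ 0 := by
    intro h
    have h' : ((2 : ℕ) : ZMod (below v : ℕ)) = 0 := by exact_mod_cast h
    rw [ZMod.natCast_eq_zero_iff] at h'
    exact hp2 ((Nat.prime_dvd_prime_iff_eq (below v).2 Nat.prime_two).1 h')
  letI : Algebra (ZMod (below v : ℕ)) (𝓞 K ⧸ v.asIdeal) := ZMod.algebra _ _
  have hfin : Module.finrank (ZMod (below v : ℕ)) (𝓞 K ⧸ v.asIdeal) = deg v := by
    apply Nat.pow_right_injective (below v).2.two_le
    show (below v : ℕ) ^ _ = (below v : ℕ) ^ _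
    rw [FiniteField.pow_finrank_eq_natCard (below v : ℕ), card_quot]
  have e1 := Pool.Agent.Y18.JT.s_cubext (below v : ℕ) hp2 13 128 0 (by
    intro h
    have h6 : ((below v : ℕ) : ℤ) ∣ ((2 ^ 14 * 7 ^ 3 : ℕ) : ℤ) := by
      rw [← Int.dvd_neg]
      convert h using 1
      norm_num
    have h7' : (below v : ℕ) ∣ 2 ^ 14 * 7 ^ 3 := by exact_mod_cast h6
    rcases (Nat.Prime.dvd_mul (below v).2).1 h7' with h8 | h8
    · exact hp2 ((Nat.prime_dvd_prime_iff_eq (below v).2 Nat.prime_two).1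
        ((below v).2.dvd_of_dvd_pow h8))
    · exact h7 ((Nat.prime_dvd_prime_iff_eq (below v).2 (by norm_num)).1
        ((below v).2.dvd_of_dvd_pow h8))) (𝓞 K ⧸ v.asIdeal)
  rw [hfin, ← pts_cubic (𝓞 K ⧸ v.asIdeal) h20, ← pts_cubic (ZMod (below v : ℕ)) h20'] at e1
  unfold av ap
  rw [hcard, affCount_eq]
  exact e1

/-- the factor in terms of the prime below -/
lemma fE_eq (v : HeightOneSpectrum (𝓞 K)) (s : ℂ) :
    fE s v = (1 - pw (ap E14 (below v) : ℂ) (pp (below v)) (deg v) *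
        (((below v : ℕ) : ℂ) ^ (-s)) ^ deg v +
      (pp (below v)) ^ deg v * (((below v : ℕ) : ℂ) ^ (-s)) ^ (2 * deg v))⁻¹ := by
  have hdeg : deg v ≠ 0 := (nm_eq v).2.1.ne'
  unfold fE
  rw [av_eq, nm_cpow]
  by_cases h14 : ((14 : ℤ) : 𝓞 K) ∈ v.asIdeal
  · have hpp : pp (below v) = 0 := by
      unfold pp
      rw [if_pos ((mem14_iff v).1 h14)]
    rw [if_pos h14, hpp, zero_pow hdeg, zero_mul]
  · have hpp : pp (below v) = ((below v : ℕ) : ℂ) := by
      unfold pp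
      rw [if_neg (fun h => h14 ((mem14_iff v).2 h))]
    have hpc : ((Ideal.absNorm v.asIdeal : ℕ) : ℂ) ^ (1 - 2 * s) =
        (((below v : ℕ) : ℂ)) ^ deg v * (((below v : ℕ) : ℂ) ^ (-s)) ^ (2 * deg v) := by
      rw [nm_cpow, prime_cpow _ (below v).2.ne_zero, mul_pow, ← pow_mul]
    rw [if_neg h14, hpp, hpc]

/-- Hasse's bound -/
lemma av_bound (v : HeightOneSpectrum (𝓞 K)) (hv : (below v : ℕ) ≠ 2) :
    |((av v : ℤ) : ℝ)| ≤ 2 * Real.sqrt (nm v) := by
  have hmax : v.asIdeal.IsMaximal := v.isPrime.isMaximal v.ne_bot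
  letI : Field (𝓞 K ⧸ v.asIdeal) := Ideal.Quotient.field v.asIdeal
  have : Finite (𝓞 K ⧸ v.asIdeal) := Ideal.finiteQuotientOfFreeOfNeBot v.asIdeal v.ne_bot
  letI : Fintype (𝓞 K ⧸ v.asIdeal) := Fintype.ofFinite _
  have hch := charP_quot v
  have hE : ringChar (𝓞 K ⧸ v.asIdeal) ≠ 2 := by
    rw [ringChar.eq (𝓞 K ⧸ v.asIdeal) (below v : ℕ)]; exact hv
  have hcard : Ideal.absNorm v.asIdeal = Fintype.card (𝓞 K ⧸ v.asIdeal) := by
    rw [Ideal.absNorm_apply, Submodule.cardQuot_apply, Nat.card_eq_fintype_card]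
  have h4 := pts_bound (k := 𝓞 K ⧸ v.asIdeal) hE
  unfold av nm
  rw [hcard]
  push_cast at h4 ⊢
  exact h4

open Classical in
/-- the part of the factor different from one -/
lemma fE_sub_bound (v : HeightOneSpectrum (𝓞 K)) (hv : (below v : ℕ) ≠ 2) (s : ℂ)
    (hs : 3 / 2 < s.re) (hsmall : (nm v : ℝ) ^ (-(s.re - 1 / 2)) ≤ 1 / 6) :
    ‖fE s v - 1‖ ≤ 6 * (nm v : ℝ) ^ (-(s.re - 1 / 2)) := by
  have hn0 : (0 : ℝ) < nm v := by
    have := two_le_nm v
    exact_mod_cast (by omega : 0 < nm v)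
  have hn1 : (1 : ℝ) ≤ nm v := by
    have := two_le_nm v
    exact_mod_cast (by omega : 1 ≤ nm v)
  have hb := av_bound v hv
  unfold fE
  set t : ℤ := av v with ht
  set w : ℝ := (nm v : ℝ) ^ (-(s.re - 1 / 2)) with hw
  have e1 : ‖((Ideal.absNorm v.asIdeal : ℕ) : ℂ) ^ (-s)‖ = (nm v : ℝ) ^ (-s.re) := by
    have := Complex.norm_natCast_cpow_of_pos (n := nm v) (by exact_mod_cast hn0) (-s)
    rw [Complex.neg_re] at this
    exact this
  have e2 : ‖((Ideal.absNorm v.asIdeal : ℕ) : ℂ) ^ (1 - 2 * s)‖ = (nm v : ℝ) ^ (1 - 2 * s.re) := by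
    have := Complex.norm_natCast_cpow_of_pos (n := nm v) (by exact_mod_cast hn0) (1 - 2 * s)
    have h2 : (1 - 2 * s).re = 1 - 2 * s.re := by simp
    rw [h2] at this
    exact this
  set B : ℂ := (if ((14 : ℤ) : 𝓞 K) ∈ v.asIdeal then 0 else
    ((Ideal.absNorm v.asIdeal : ℕ) : ℂ) ^ (1 - 2 * s)) with hB
  set u : ℂ := -((t : ℂ) * ((Ideal.absNorm v.asIdeal : ℕ) : ℂ) ^ (-s)) + B with hu
  have hu1 : ‖u‖ ≤ 3 * w := by
    have h1 : ‖(t : ℂ) * ((Ideal.absNorm v.asIdeal : ℕ) : ℂ) ^ (-s)‖ ≤ 2 * w := by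
      rw [norm_mul, e1, Complex.norm_intCast]
      calc |(t : ℝ)| * (nm v : ℝ) ^ (-s.re) ≤ (2 * Real.sqrt (nm v)) * (nm v : ℝ) ^ (-s.re) :=
            mul_le_mul_of_nonneg_right hb (by positivity)
        _ = 2 * w := by
            rw [hw, Real.sqrt_eq_rpow, mul_assoc, ← Real.rpow_add hn0]
            congr 2
            ring
    have h2 : ‖B‖ ≤ w := by
      rw [hB]
      split_ifs
      · rw [norm_zero, hw]
        positivity
      · rw [e2, hw]
        apply Real.rpow_le_rpow_of_exponent_le hn1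
        linarith
    calc ‖u‖ ≤ ‖-((t : ℂ) * ((Ideal.absNorm v.asIdeal : ℕ) : ℂ) ^ (-s))‖ + _ := norm_add_le _ _
      _ ≤ 2 * w + w := add_le_add (by rwa [norm_neg]) h2
      _ = 3 * w := by ring
  have e3 : (1 - (t : ℂ) * ((Ideal.absNorm v.asIdeal : ℕ) : ℂ) ^ (-s) + B) = 1 + u := by
    rw [hu]; ring
  rw [e3]
  have hu2 : ‖u‖ ≤ 1 / 2 := by linarith
  have h3 : 1 / 2 ≤ ‖1 + u‖ := by
    have := norm_sub_norm_le (1 : ℂ) (-u)
    rw [sub_neg_eq_add, norm_neg, norm_one] at this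
    linarith
  have hne : 1 + u ≠ 0 := by
    intro h
    rw [h, norm_zero] at h3
    linarith
  have e4 : (1 + u)⁻¹ - 1 = -u / (1 + u) := by field_simp; ring
  rw [e4, norm_div, norm_neg, div_le_iff₀ (by linarith)]
  nlinarith [norm_nonneg u]

lemma multipliable_fE (s : ℂ) (hs : 3 / 2 < s.re) : Multipliable (fE (K := K) s) := by
  have hsum := nm_summable (K := K) (x := s.re - 1 / 2) (by linarith)
  have h1 : Summable (fun v : HeightOneSpectrum (𝓞 K) => ‖fE s v - 1‖) := by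
    refine Summable.of_norm_bounded_eventually (hsum.mul_left 6) ?_
    have h2 := hsum.tendsto_cofinite_zero.eventually (Iio_mem_nhds (by norm_num : (0 : ℝ) < 1 / 6))
    have h3 : ∀ᶠ v : HeightOneSpectrum (𝓞 K) in cofinite, ¬ ((below v : ℕ) : ℤ) ∣ 2 := by
      rw [Filter.eventually_cofinite]
      simp only [not_not]
      exact finite_bad _ (by norm_num)
    filter_upwards [h2, h3] with v hv hv3
    rw [norm_norm]
    exact fE_sub_bound v (fun h => hv3 (by rw [h]; norm_num)) s hs (le_of_lt hv)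
  have h2 := multipliable_one_add_of_summable h1
  refine h2.congr (fun v => ?_)
  ring

end

section prod
variable (n : ℕ) [NeZero n] (L : Type) [Field L] [NumberField L] [IsCyclotomicExtension {n} ℚ L]
  (F : IntermediateField ℚ L)

/-- the Euler factor of the twist by the primitive character -/
noncomputable def eul (χ : DirichletCharacter ℂ n) (s : ℂ) (p : ℕ) : ℂ :=
  (1 - (ap E14 p : ℂ) * pv n χ p * (p : ℂ) ^ (-s) + pp p * pv n χ p ^ 2 * (p : ℂ) ^ (-2 * s))⁻¹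

open Classical in
/-- the Euler product over the subfield `F` of the cyclotomic field -/
theorem hasProd_K (G : DirichletCharacter ℂ n → ℂ → ℂ) (s : ℂ)
    (hs : 3 / 2 < s.re)
    (hG : ∀ χ ∈ YY n L F, HasProd (fun p : Nat.Primes => eul n χ s p) (G χ s)) :
    HasProd (fE (K := F) s) (∏ χ : YY n L F, G χ s) := by
  have h1 : HasProd (fun p : Nat.Primes => ∏ χ : YY n L F, eul n χ s p)
      (∏ χ : YY n L F, G χ s) := by
    apply hasProd_prod
    intro χ _
    exact hG χ.1 χ.2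
  have h2 : ∀ p : Nat.Primes, ∏ χ : YY n L F, eul n χ s p =
      ∏ v : {v : HeightOneSpectrum (𝓞 F) // below v = p}, fE s v.1 := by
    intro p
    have h3 : ∀ v : {v : HeightOneSpectrum (𝓞 F) // below v = p}, fE s v.1 =
        (1 - pw (ap E14 p : ℂ) (pp p) (deg v.1) * (((p : ℕ) : ℂ) ^ (-s)) ^ deg v.1 +
          pp p ^ deg v.1 * (((p : ℕ) : ℂ) ^ (-s)) ^ (2 * deg v.1))⁻¹ := by
      rintro ⟨v, hv⟩
      rw [fE_eq v s, hv]
    rw [Finset.prod_congr rfl (fun v _ => h3 v), Finset.prod_inv_distrib,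
      local_quad n L F p (ap E14 p : ℂ) (pp p) (((p : ℕ) : ℂ) ^ (-s)), ← Finset.prod_inv_distrib]
    refine Finset.prod_congr rfl fun χ _ => ?_
    unfold eul
    congr 1
    have e1 : ((p : ℕ) : ℂ) ^ (-2 * s) = (((p : ℕ) : ℂ) ^ (-s)) ^ 2 := by
      rw [← Complex.cpow_nat_mul]
      congr 1
      push_cast
      ring
    rw [e1]
    ring
  simp_rw [h2] at h1
  have h3 : Multipliable (fE (K := F) s) := multipliable_fE s hs
  rw [← (Equiv.sigmaFiberEquiv (below (K := F))).hasProd_iff]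
  refine HasProd.sigma_of_hasProd h1 (fun p => ?_) ?_
  · exact hasProd_fintype _
  · exact (Equiv.sigmaFiberEquiv (below (K := F))).multipliable_iff.2 h3

end prod

/-- **LK** -/
theorem s_lk : S_LK := by
  classical
  intro n _ _ L _ _ _ F G s hs hG
  rw [finprod_eq_prod_of_fintype]
  exact hasProd_K n L F G s hs hG

end Pool.Agent.Y884.XT
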